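import Pool.Agent.helper12.TZ.SpecI
import Pool.Agent.helper31.DI.D11

set_option autoImplicit false

/-!
# Project tz (MP_baa4d7_al), row tz:IQR: the relation for extensions of order prime to `p`
-/

namespace Pool.Agent.TZ

open Pool.Agent.helper58.DC Pool.Agent.DI Pool.Agent.GR Pool.Agent.OB

theorem IQR_card (G E A : Type) [Group G] [Group E] [Group A] [Finite G] [Finite E]
    (X : Extension G E A) : Nat.card E = Nat.card G * Nat.card A := by
  have h1 := Subgroup.card_eq_card_quotient_mul_card_subgroup X.proj.ker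
  have h2 : Nat.card (E ⧸ X.proj.ker) = Nat.card A :=
    Nat.card_congr (QuotientGroup.quotientKerEquivOfSurjective X.proj X.proj_surjective).toEquiv
  have h3 : X.proj.ker = X.inc.range := by
    ext e
    rw [MonoidHom.mem_ker, MonoidHom.mem_range]
    exact X.exact e
  have h4 : Nat.card X.inc.range = Nat.card G :=
    (Nat.card_congr (MonoidHom.ofInjective X.inc_injective).toEquiv).symm
  rw [h1, h2, h3, h4, mul_comm]

theorem IQR_vac (G E A : Type) [Group G] [Group E] [Group A] [Finite G] [Finite E]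
    (X : Extension G E A) (p : ℕ) [Fact p.Prime] (hpA : ¬ p ∣ Nat.card A) (Q : Subgroup E)
    (hQ : IsPGroup p Q) (hQb : Q ≠ ⊥) (hQr : Q ⊓ X.inc.range = ⊥) : False := by
  have hfin : Finite A := Finite.of_surjective X.proj X.proj_surjective
  have hinj : Function.Injective (X.proj.comp Q.subtype) := by
    rw [injective_iff_map_eq_one]
    intro x hx
    have h1 : X.proj (x : E) = 1 := hx
    obtain ⟨g, hg⟩ := (X.exact (x : E)).1 h1
    have h2 : (x : E) ∈ Q ⊓ X.inc.range := ⟨x.2, ⟨g, hg⟩⟩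
    rw [hQr, Subgroup.mem_bot] at h2
    exact Subtype.ext h2
  have hdvd : Nat.card Q ∣ Nat.card A := Subgroup.card_dvd_of_injective _ hinj
  obtain ⟨n, hn⟩ := IsPGroup.iff_card.1 hQ
  rcases Nat.eq_zero_or_pos n with h0 | h0
  · rw [h0, pow_zero] at hn
    exact hQb (Subgroup.card_eq_one.1 hn)
  · exact hpA ((dvd_pow_self p h0.ne').trans (hn ▸ hdvd))

theorem IQR_top (hA7 : A7_stmt) (hA8 : A8_stmt) (E : Type) [Group E] [Finite E] (p : ℕ)
    [Fact p.Prime] (hP : IsOp p (⊤ : Subgroup E) ⊥) (g : Subgroup E → ℤ) :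
    ∑ᶠ C ∈ {C : Finset (Subgroup E) | IsRadical p C}, (-1) ^ (C.card + 1) * g (nrm C) =
      cSum p ⊤ ⊥ ⊤ g := by
  have h7 := hA7 E p ⊤ ⊥ ⊤ g hP (by
    have h0 : nz (⊤ : Subgroup E) = ⊤ := Subgroup.normalizer_eq_top_iff.2 inferInstance
    rw [h0]
    exact le_top)
  rw [← h7]
  have h8 := hA8 E E p (MonoidHom.id E) Function.injective_id ⊤ g
  have hr : (MonoidHom.id E).range = ⊤ := MonoidHom.range_eq_top.2 Function.surjective_id
  rw [hr] at h8
  rw [← h8]
  apply finsum_congr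
  intro C
  apply finsum_congr
  intro _
  rw [D11_cmap_id, top_inf_eq]

theorem IQR (hIQA : IQA_stmt) (hIOP : IOP_stmt) (hA7 : A7_stmt) (hA8 : A8_stmt)
    (hA12 : A12_stmt) (hA14 : A14_stmt) (hB0 : B0_stmt) (hC1 : C1_stmt) (hC10 : C10_stmt)
    (hC15 : C15_stmt) (hC16 : C16_stmt) (hIM : IM_stmt) (hD0 : D0_stmt) (hD4 : D4_stmt)
    (hD8 : D8_stmt) : IQR_stmt := by
  intro G E A _ _ _ _ _ X p _ M hM hpM hA hpA hOp χ hχ hst
  have hfin : Finite A := Finite.of_surjective X.proj X.proj_surjective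
  have hcq : CycQ X.inc.range := hB0.2.2.2 G E A X hA
  have hcomm := hB0.1 E X.inc.range hcq
  have hnor : X.inc.range.Normal := hcq.1
  obtain ⟨τ, hτ⟩ : ∃ τ : E → ℂ, τ = omega (ext0 X.inc χ) := ⟨_, rfl⟩
  have hOpE := hIOP G E A X p hpA hOp
  obtain ⟨RE, hRE1, hRE2⟩ := hIQA E p M hM hpM X.inc.range τ
  refine ⟨RE, fun b hb => by rw [← hτ]; exact hRE1 b hb, fun d => ?_⟩
  have e0 := hRE2 d
  rw [IQR_top hA7 hA8 E p hOpE (gfun p M X.inc.range τ d)] at e0
  have e2 := hA12 E p X.inc.range (gfun p M X.inc.range τ d) hnor hcomm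
    (fun Q hQ1 hQ2 hQ3 => (IQR_vac G E A X p hpA Q hQ1 hQ2 hQ3).elim)
  rw [e0] at e2
  have hOp' : IsOp p X.inc.range ⊥ := ((hA14 G E p X.inc X.inc_injective).2.1).1 hOp
  have e3 := hA7 E p X.inc.range ⊥ ⊤ (gfun p M X.inc.range τ d) hOp' (by
    have : nz X.inc.range = ⊤ := Subgroup.normalizer_eq_top_iff.2 hnor
    rw [this]
    exact le_top)
  rw [← e2] at e3
  have e4 := hA8 G E p X.inc X.inc_injective ⊤ (gfun p M X.inc.range τ d)
  rw [e3] at e4
  obtain ⟨R, hR1, hR2⟩ := hC15 G M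
  obtain ⟨ε, hε⟩ := hD8 G E A X
  have e5 := hD4 G E A E X X.inc.range ⊤ 1 ε p M hM hpM hcq τ d R hR1 hR2
  rw [hε, e4] at e5
  obtain ⟨b, ⟨hbR, hb1⟩, hb2⟩ := hR2 χ ⟨χ, hχ, (hIM G M χ χ χ).1⟩
  have hbχ : Induces M b χ := (hIM G M χ b b).2.1 hb1
  have hCov : Cov M X.inc.range τ (ext0 X.inc b) := by
    intro g _
    rw [hτ]
    exact (hC1 p M hM hpM).2.1 _ _ (hC16 G E p M hM hpM X.inc X.inc_injective χ b hb1 g)
  rw [Finset.sum_eq_single b, if_pos hCov] at e5
  · have e6 : ∑ᶠ U : Subgroup A, ((1 * Nat.card U : ℕ) : ℤ) ^ 2 *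
        ((Nat.card G : ℤ) * altSum X p M b (d - padicValNat p (1 * Nat.card U)) U) =
        (Nat.card G : ℤ) • ∑ᶠ U : Subgroup A, (Nat.card U : ℤ) ^ 2 *
          altSum X p M χ d U := by
      rw [smul_finsum]
      apply finsum_congr
      intro U
      have hU : ¬ p ∣ Nat.card U := fun h => hpA (h.trans (Subgroup.card_subgroup_dvd_card U))
      rw [one_mul, padicValNat.eq_zero_of_not_dvd hU, hD0 G E A X p M b χ hbχ, smul_eq_mul]
      push_cast
      rw [sub_zero]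
      ring
    rw [e6, smul_eq_mul, ← Finset.mul_sum, IQR_card G E A X] at e5
    have h9 : (Nat.card G : ℤ) ≠ 0 := by exact_mod_cast Nat.card_pos.ne'
    push_cast at e5
    rw [mul_assoc] at e5
    exact mul_left_cancel₀ h9 e5
  · intro c hcR hcb
    rw [if_neg]
    intro hcov
    apply hcb
    apply hb2
    refine ⟨hcR, ?_⟩
    apply (hIM G M c χ χ).2.1
    refine hC10 G E A X p M hM hpM c (hR1 c hcR) χ hχ hst ?_
    intro g hg
    have := hcov g hg
    rw [hτ] at this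
    exact this
  · intro h
    exact absurd hbR h

end Pool.Agent.TZ
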